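import Pool.Agent.SGB.Stmts

/-!
# Squad SGB, row POP: popular elements
-/

set_option autoImplicit false

open Finset
open scoped Pointwise

namespace Pool.Agent.SGB.H55

universe u

open Classical in
theorem tuples (tup : TUPStmt) {ι : Type} [Fintype ι] (P : ι → Prop) (Bd : ι → ι → Prop) (r : ℕ)
    (hr : 1 ≤ r) (C : ℝ) (hC : ((univ.filter fun p : ι × ι => Bd p.1 p.2).card : ℝ) ≤ C)
    (h : (r : ℝ) ^ 2 * C ≤ ((univ.filter P).card : ℝ) ^ 2 / 2) :
    ((univ.filter P).card : ℝ) ^ r / 2 ≤
      ((univ.filter fun h : Fin r → ι =>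
        (∀ a b, a ≠ b → ¬ Bd (h a) (h b)) ∧ ∀ c, P (h c)).card : ℝ) := by
  set s : ℝ := ((univ.filter P).card : ℝ) with hs
  set f : ι → ℝ := fun x => if P x then 1 else 0 with hf
  set F : ι → ι → ℝ := fun x y => if Bd x y then 1 else 0 with hF
  have hs0 : 0 ≤ s := Nat.cast_nonneg _
  have hfs : ∑ x, f x = s := by
    rw [hs, hf, Finset.sum_boole]
  have hf0 : ∀ x, 0 ≤ f x := fun x => by
    simp only [hf]; split_ifs <;> norm_num
  have hf1 : ∀ x, f x ≤ 1 := fun x => by
    simp only [hf]; split_ifs <;> norm_num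
  have hF0 : ∀ x y, 0 ≤ F x y := fun x y => by
    simp only [hF]; split_ifs <;> norm_num
  have hpt : ∀ g : Fin r → ι, (∏ c, f (g c)) -
      ∑ a, ∑ b, (if a ≠ b then (∏ c, f (g c)) * F (g a) (g b) else 0) ≤
      if ((∀ a b, a ≠ b → ¬ Bd (g a) (g b)) ∧ ∀ c, P (g c)) then (1 : ℝ) else 0 := by
    intro g
    by_cases hP : ∀ c, P (g c)
    · have h1 : ∏ c, f (g c) = 1 := by
        refine Finset.prod_eq_one fun c _ => ?_
        simp only [hf]
        rw [if_pos (hP c)]
      rw [h1]
      have hnn : ∀ a b : Fin r, (0 : ℝ) ≤ (if a ≠ b then 1 * F (g a) (g b) else 0) := by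
        intro a b
        split_ifs
        · rw [one_mul]; exact hF0 _ _
        · exact le_rfl
      by_cases hB : ∀ a b, a ≠ b → ¬ Bd (g a) (g b)
      · rw [if_pos ⟨hB, hP⟩]
        have := Finset.sum_nonneg fun a (_ : a ∈ (univ : Finset (Fin r))) =>
          Finset.sum_nonneg fun b (_ : b ∈ (univ : Finset (Fin r))) => hnn a b
        linarith
      · rw [if_neg (fun h => hB h.1)]
        push Not at hB
        obtain ⟨a, b, hab, hbd⟩ := hB
        have h2 : (1 : ℝ) ≤ ∑ a, ∑ b, (if a ≠ b then 1 * F (g a) (g b) else 0) := by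
          have h3 : (1 : ℝ) = (if a ≠ b then 1 * F (g a) (g b) else 0) := by
            rw [if_pos hab, one_mul]
            simp only [hF]
            rw [if_pos hbd]
          calc (1 : ℝ) = (if a ≠ b then 1 * F (g a) (g b) else 0) := h3
            _ ≤ ∑ b, (if a ≠ b then 1 * F (g a) (g b) else 0) :=
              Finset.single_le_sum (f := fun b => (if a ≠ b then 1 * F (g a) (g b) else 0))
                (fun b _ => hnn a b) (Finset.mem_univ b)
            _ ≤ _ := Finset.single_le_sum
                (f := fun a => ∑ b, (if a ≠ b then 1 * F (g a) (g b) else 0))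
                (fun a _ => Finset.sum_nonneg fun b _ => hnn a b) (Finset.mem_univ a)
        linarith
    · rw [if_neg (fun h => hP h.2)]
      push Not at hP
      obtain ⟨c, hc⟩ := hP
      have h1 : ∏ c, f (g c) = 0 := by
        refine Finset.prod_eq_zero (Finset.mem_univ c) ?_
        simp only [hf]
        rw [if_neg hc]
      rw [h1]
      simp
  have hsum := Finset.sum_le_sum fun (g : Fin r → ι) (_ : g ∈ univ) => hpt g
  rw [Finset.sum_boole, Finset.sum_sub_distrib] at hsum
  have e1 : ∑ g : Fin r → ι, ∏ c, f (g c) = s ^ r := by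
    rw [← Fintype.sum_pow, hfs]
  set D : ℝ := ∑ x, ∑ y, f x * f y * F x y with hD
  have hDC : D ≤ C := by
    refine le_trans ?_ hC
    have h1 : ((univ.filter fun p : ι × ι => Bd p.1 p.2).card : ℝ) = ∑ x, ∑ y, F x y := by
      rw [← Finset.sum_boole, ← Finset.univ_product_univ, Finset.sum_product]
    rw [h1]
    refine Finset.sum_le_sum fun x _ => Finset.sum_le_sum fun y _ => ?_
    have h2 : f x * f y ≤ 1 := mul_le_one₀ (hf1 x) (hf0 y) (hf1 y)
    calc f x * f y * F x y ≤ 1 * F x y := mul_le_mul_of_nonneg_right h2 (hF0 x y)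
      _ = F x y := one_mul _
  have hD0 : 0 ≤ D := Finset.sum_nonneg fun x _ => Finset.sum_nonneg fun y _ =>
    mul_nonneg (mul_nonneg (hf0 x) (hf0 y)) (hF0 x y)
  have e2 : ∑ g : Fin r → ι, ∑ a, ∑ b,
      (if a ≠ b then (∏ c, f (g c)) * F (g a) (g b) else 0) =
      ∑ a : Fin r, ∑ b : Fin r, (if a ≠ b then s ^ (r - 2) * D else 0) := by
    rw [Finset.sum_comm]
    refine Finset.sum_congr rfl fun a _ => ?_
    rw [Finset.sum_comm]
    refine Finset.sum_congr rfl fun b _ => ?_
    by_cases hab : a ≠ b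
    · simp only [if_pos hab]
      rw [tup ι r a b f F hab, hfs]
    · simp only [if_neg hab]
      simp
  have e3 : ∑ a : Fin r, ∑ b : Fin r, (if a ≠ b then s ^ (r - 2) * D else 0) ≤ s ^ r / 2 := by
    rcases eq_or_lt_of_le hr with h1 | h1
    · subst h1
      have h0 : ∑ a : Fin 1, ∑ b : Fin 1, (if a ≠ b then s ^ (1 - 2) * D else 0) = 0 :=
        Finset.sum_eq_zero fun a _ => Finset.sum_eq_zero fun b _ =>
          if_neg fun hab => hab (Subsingleton.elim a b)
      rw [h0]
      positivity
    · have h2 : ∀ a b : Fin r, (if a ≠ b then s ^ (r - 2) * D else 0) ≤ s ^ (r - 2) * C := by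
        intro a b
        have h3 : s ^ (r - 2) * D ≤ s ^ (r - 2) * C :=
          mul_le_mul_of_nonneg_left hDC (by positivity)
        split_ifs
        · exact h3
        · exact le_trans (by positivity) h3
      calc ∑ a : Fin r, ∑ b : Fin r, (if a ≠ b then s ^ (r - 2) * D else 0)
          ≤ ∑ a : Fin r, ∑ b : Fin r, s ^ (r - 2) * C :=
            Finset.sum_le_sum fun a _ => Finset.sum_le_sum fun b _ => h2 a b
        _ = s ^ (r - 2) * ((r : ℝ) ^ 2 * C) := by
            simp only [Finset.sum_const, Finset.card_univ, Fintype.card_fin, nsmul_eq_mul]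
            ring
        _ ≤ s ^ (r - 2) * (s ^ 2 / 2) := mul_le_mul_of_nonneg_left h (by positivity)
        _ = s ^ r / 2 := by
            have h4 : s ^ (r - 2) * s ^ 2 = s ^ r := by
              rw [← pow_add]; congr 1; omega
            rw [← h4]; ring
  rw [e1, e2] at hsum
  linarith

open Classical in
/-- POP -/
theorem pop (its : ITSStmt.{u}) (tup : TUPStmt) : POPStmt.{u} := by
  intro H _ _ ι _ _ S T hST r κ B E hr hκ hB hE hrE
  set n : ℝ := (Fintype.card ι : ℝ) with hn
  have hn0 : 0 < n := by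
    rw [hn]; exact_mod_cast Fintype.card_pos
  set X : ℝ := Real.exp ((2 / r - 1) * Real.log (nn H) + 2 * (1 - 1 / r) * Real.log B) with hX
  set Q : Finset H := univ.filter fun v : H =>
      κ * n ≤ ((univ.filter fun h : ι => v ∈ S h).card : ℝ) with hQ
  set G : (Fin r → ι) → Prop := fun g => ∀ a b, a ≠ b → ¬ (B * kk S T (g a) (g b) < nn H) with hG
  -- many good tuples for each popular element
  have h1 : ∀ v ∈ Q, (κ * n) ^ r / 2 ≤
      ((univ.filter fun g : Fin r → ι => G g ∧ ∀ c, v ∈ S (g c)).card : ℝ) := by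
    intro v hv
    have hv' : κ * n ≤ ((univ.filter fun h : ι => v ∈ S h).card : ℝ) := (mem_filter.1 hv).2
    have hk : 0 ≤ κ * n := by positivity
    have h2 : (κ * n) ^ 2 ≤ ((univ.filter fun h : ι => v ∈ S h).card : ℝ) ^ 2 := by gcongr
    have h3 := tuples tup (fun h : ι => v ∈ S h) (fun x y => B * kk S T x y < nn H) r hr
      (E * n ^ 2) hE (by
        have h4 : (r : ℝ) ^ 2 * E * n ^ 2 ≤ κ ^ 2 / 2 * n ^ 2 :=
          mul_le_mul_of_nonneg_right hrE (by positivity)
        have h5 : κ ^ 2 / 2 * n ^ 2 = (κ * n) ^ 2 / 2 := by ring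
        calc (r : ℝ) ^ 2 * (E * n ^ 2) = (r : ℝ) ^ 2 * E * n ^ 2 := by ring
          _ ≤ (κ * n) ^ 2 / 2 := by rw [← h5]; exact h4
          _ ≤ _ := by linarith)
    refine le_trans ?_ h3
    have h6 : (κ * n) ^ r ≤ ((univ.filter fun h : ι => v ∈ S h).card : ℝ) ^ r := by gcongr
    linarith
  -- each good tuple has a small intersection
  have h2 : ∀ g : Fin r → ι, G g →
      ((univ.filter fun v : H => ∀ c, v ∈ S (g c)).card : ℝ) ≤ X := by
    intro g hg
    have h3 : ((univ.filter fun v : H => ∀ c, v ∈ S (g c)).card : ℝ) = cd (⨅ c, S (g c)) := by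
      unfold cd
      congr 1
      rw [Nat.card_eq_fintype_card, Fintype.card_subtype]
      congr 1
      ext v
      simp [AddSubgroup.mem_iInf]
    have h4 := its H r (fun c => S (g c)) (fun c => T (g c)) (⨅ c, S (g c)) B hr hB
      (fun a => hST (g a)) (fun a => iInf_le _ a) (fun a b hab => by
        have := hg a b hab
        push Not at this
        exact this)
    have h5 : 0 < cd (⨅ c, S (g c)) := by
      unfold cd
      exact_mod_cast Nat.card_pos
    rw [h3, ← Real.exp_log h5, hX]
    exact Real.exp_le_exp.2 h4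
  -- double counting
  have h3 : (Q.card : ℝ) * ((κ * n) ^ r / 2) ≤ n ^ r * X := by
    calc (Q.card : ℝ) * ((κ * n) ^ r / 2) = ∑ v ∈ Q, (κ * n) ^ r / 2 := by
          rw [Finset.sum_const, nsmul_eq_mul]
      _ ≤ ∑ v ∈ Q, ((univ.filter fun g : Fin r → ι => G g ∧ ∀ c, v ∈ S (g c)).card : ℝ) :=
          Finset.sum_le_sum h1
      _ ≤ ∑ v : H, ((univ.filter fun g : Fin r → ι => G g ∧ ∀ c, v ∈ S (g c)).card : ℝ) :=
          Finset.sum_le_sum_of_subset_of_nonneg (Finset.subset_univ _)
            fun v _ _ => Nat.cast_nonneg _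
      _ = ∑ g : Fin r → ι, (if G g then
            ((univ.filter fun v : H => ∀ c, v ∈ S (g c)).card : ℝ) else 0) := by
          simp only [← Finset.sum_boole]
          rw [Finset.sum_comm]
          refine Finset.sum_congr rfl fun g _ => ?_
          by_cases hg : G g
          · simp only [hg, true_and, if_true]
          · simp only [hg, false_and, if_false, Finset.sum_const_zero]
      _ ≤ ∑ g : Fin r → ι, X := by
          refine Finset.sum_le_sum fun g _ => ?_
          split_ifs with hg
          · exact h2 g hg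
          · exact (Real.exp_pos _).le
      _ = n ^ r * X := by
          rw [Finset.sum_const, nsmul_eq_mul, Finset.card_univ, Fintype.card_fun, Fintype.card_fin]
          push_cast
          rfl
  have hnr : 0 < n ^ r := by positivity
  have h4 : n ^ r * ((Q.card : ℝ) * (κ ^ r / 2)) ≤ n ^ r * X := by
    calc n ^ r * ((Q.card : ℝ) * (κ ^ r / 2)) = (Q.card : ℝ) * ((κ * n) ^ r / 2) := by
          rw [mul_pow]; ring
      _ ≤ _ := h3
  exact le_of_mul_le_mul_left h4 hnr

end Pool.Agent.SGB.H55
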